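import Pool.Agent.MPcb31e3.McDuff

/-!
`d(M) = 2` for every McDuff II₁ factor on a separable Hilbert space.
-/

namespace Pool.Agent.Results.MP_cb31e3_an.McDuffRankTwo

open Pool.Agent.MPcb31e3
open scoped Cardinal

universe u

/-- A II₁ factor `M` on a separable Hilbert space which is generated by a sequence of commuting
systems of `2 × 2` matrix units and by their relative commutant in `M` (that is, `M ≅ N ⊗ R` with
`R` the hyperfinite II₁ factor) satisfies `d(M) = 2`. -/
theorem result {H : Type u} [NormedAddCommGroup H] [InnerProductSpace ℂ H] [CompleteSpace H]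
    [TopologicalSpace.SeparableSpace H] (M : VonNeumannAlgebra H) (hM : IsII1Factor M)
    (f v : ℕ → H →L[ℂ] H) (hs : MatrixSystem M f v)
    (hgen : Generates M (Set.range f ∪ Set.range v ∪
      {x | x ∈ (M : Set (H →L[ℂ] H)) ∧ ∀ k, x * f k = f k * x ∧ x * v k = v k * x})) :
    topRank M = 2 := by
  obtain ⟨ξ, hξ⟩ := hM.trace
  obtain ⟨h, hh⟩ := topGenerates_mcDuff M hξ hs hgen
  apply le_antisymm _ (two_le_topRank hM)
  refine (topRank_le hh).trans ?_
  have h2 := Cardinal.mk_range_le_lift
    (f := fun i : Bool => phi M (selfAdjoint.expUnitary (h i)))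
  rw [Cardinal.mk_bool] at h2
  simpa using h2

end Pool.Agent.Results.MP_cb31e3_an.McDuffRankTwo
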