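import Pool.Agent.MPcb31e3.Ranks

/-!
Topological generators of the unitary group of a finite von Neumann algebra: their least number
is the least number of unitaries generating the von Neumann algebra.
-/

namespace Pool.Agent.Results.MP_cb31e3_an.TopRankEqGenRank

open Pool.Agent.MPcb31e3
open scoped Cardinal

universe u

/-- A set with at most two elements, all of them unitaries of `M`, which topologically generates
`U(M)` can be replaced by a pair. -/
theorem exists_pair {H : Type u} [NormedAddCommGroup H] [InnerProductSpace ℂ H] [CompleteSpace H]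
    {M : VonNeumannAlgebra H} (h : topRank M ≤ 2) :
    ∃ u v : unitary (H →L[ℂ] H), TopGenerates M {u, v} := by
  obtain ⟨S, hS, hcard⟩ := exists_topRank M
  rw [hcard] at h
  have hone : (1 : unitary (H →L[ℂ] H)) ∈ UM M := one_mem M.toStarSubalgebra
  have hmono : ∀ T : Set (unitary (H →L[ℂ] H)), S ⊆ T → T ⊆ UM M → TopGenerates M T := by
    intro T hST hT
    refine ⟨hT, fun w hw F ε hε => ?_⟩
    obtain ⟨g, hg, hg2⟩ := hS.2 w hw F ε hε
    exact ⟨g, Subgroup.closure_mono hST hg, hg2⟩
  rcases S.eq_empty_or_nonempty with h0 | ⟨a, ha⟩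
  · refine ⟨1, 1, hmono _ (by rw [h0]; exact Set.empty_subset _) ?_⟩
    rintro w (rfl | hw)
    · exact hone
    · rw [Set.mem_singleton_iff.1 hw]; exact hone
  · by_cases h1 : ∃ b ∈ S, b ≠ a
    · obtain ⟨b, hb, hba⟩ := h1
      refine ⟨a, b, hmono _ ?_ ?_⟩
      · intro w hw
        by_contra hcon
        simp only [Set.mem_insert_iff, Set.mem_singleton_iff, not_or] at hcon
        have h3 : ({a, b, w} : Set (unitary (H →L[ℂ] H))) ⊆ S := by
          rintro z (rfl | rfl | hz)
          · exact ha
          · exact hb
          · rw [Set.mem_singleton_iff.1 hz]; exact hw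
        have h4 : #({a, b, w} : Set (unitary (H →L[ℂ] H))) = 3 := by
          rw [Cardinal.mk_insert, Cardinal.mk_insert, Cardinal.mk_singleton]
          · norm_num
          · simpa using fun e : b = w => hcon.2 e.symm
          · simp only [Set.mem_insert_iff, Set.mem_singleton_iff, not_or]
            exact ⟨fun e => hba e.symm, fun e => hcon.1 e.symm⟩
        have h5 := (Cardinal.mk_le_mk_of_subset h3).trans h
        rw [h4] at h5
        have : (3 : ℕ) ≤ 2 := by exact_mod_cast h5
        omega
      · rintro w (rfl | hw)
        · exact hS.1 ha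
        · rw [Set.mem_singleton_iff.1 hw]; exact hS.1 hb
    · push Not at h1
      refine ⟨a, a, hmono _ ?_ ?_⟩
      · intro w hw
        rw [h1 w hw]
        exact Or.inl rfl
      · rintro w (rfl | hw)
        · exact hS.1 ha
        · rw [Set.mem_singleton_iff.1 hw]; exact hS.1 ha

/-- Let `M ≠ ℂ` be a von Neumann algebra on a separable Hilbert space with a faithful normal
tracial state.  Then the least number of topological generators of `U(M)` is the least number of
unitaries generating `M` as a von Neumann algebra, and it is at most two if and only if `M` is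
singly generated.  If `M` is a II₁ factor, then it is two if and only if `M` is singly
generated. -/
theorem result {H : Type u} [NormedAddCommGroup H] [InnerProductSpace ℂ H] [CompleteSpace H]
    [TopologicalSpace.SeparableSpace H] (M : VonNeumannAlgebra H)
    (htr : ∃ ξ : ℕ → H, IsTracialState M ξ)
    (hM : ∃ x ∈ (M : Set (H →L[ℂ] H)), ∀ c : ℂ, x ≠ c • (1 : H →L[ℂ] H)) :
    topRank M = unitaryGenRank M ∧
      (topRank M ≤ 2 ↔ ∃ x : H →L[ℂ] H, Generates M {x}) ∧
      (IsII1Factor M → (topRank M = 2 ↔ ∃ x : H →L[ℂ] H, Generates M {x})) := by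
  obtain ⟨ξ, hξ⟩ := htr
  refine ⟨topRank_eq M hξ hM, ?_, fun hII => topRank_eq_two_iff hII⟩
  rw [singly_iff M hξ]
  constructor
  · exact exists_pair
  · rintro ⟨u, v, huv⟩
    refine (topRank_le huv).trans (Cardinal.mk_insert_le.trans ?_)
    rw [Cardinal.mk_singleton]
    norm_num

end Pool.Agent.Results.MP_cb31e3_an.TopRankEqGenRank
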